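import Pool.Agent.Helper3.FewP.Goals3

/-!
# FewPoints (MP_d3128a_ag), block STRIP: packet EXP (independence of exponential polynomials)
-/

set_option autoImplicit false

open Polynomial

namespace Pool.Agent.Helper78.FewP.EXP

/-- the measure of one polynomial -/
noncomputable def msr (p : ℂ[X]) : ℕ := by
  classical
  exact if p = 0 then 0 else p.natDegree + 1

theorem msr_zero : msr 0 = 0 := by
  unfold msr
  rw [if_pos rfl]

theorem msr_ne {p : ℂ[X]} (h : p ≠ 0) : msr p = p.natDegree + 1 := by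
  unfold msr
  rw [if_neg h]

theorem msr_le {p q : ℂ[X]} (h : q.degree ≤ p.degree) : msr q ≤ msr p := by
  by_cases hq : q = 0
  · rw [hq, msr_zero]
    exact Nat.zero_le _
  · have hp : p ≠ 0 := by
      rintro rfl
      rw [degree_zero] at h
      exact hq (degree_eq_bot.mp (le_bot_iff.mp h))
    rw [msr_ne hq, msr_ne hp]
    exact Nat.succ_le_succ (natDegree_le_natDegree h)

theorem msr_lt {p q : ℂ[X]} (h : q.degree < p.degree) : msr q < msr p := by
  have hp : p ≠ 0 := by
    rintro rfl
    rw [degree_zero] at h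
    exact absurd h (not_lt_bot)
  by_cases hq : q = 0
  · rw [hq, msr_zero, msr_ne hp]
    exact Nat.succ_pos _
  · rw [msr_ne hq, msr_ne hp]
    exact Nat.succ_lt_succ (natDegree_lt_natDegree hq h)

theorem comp_deg (p : ℂ[X]) : (p.comp (X + C 1)).degree = p.degree := by
  have := degree_taylor p (1 : ℂ)
  rwa [taylor_apply] at this

theorem comp_lead (p : ℂ[X]) : (p.comp (X + C 1)).leadingCoeff = p.leadingCoeff := by
  have := leadingCoeff_taylor (1 : ℂ) p
  rwa [taylor_apply] at this

theorem exp_aux (S : Finset ℤ) (t : ℂ) (ht : t ≠ 0) (h1 : ∀ n : ℤ, t ^ n = 1 → n = 0) (M : ℕ) :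
    ∀ p : ℤ → ℂ[X], ∑ s ∈ S, msr (p s) ≤ M →
      (∀ j : ℕ, ∑ s ∈ S, (t ^ s) ^ j * (p s).eval (j : ℂ) = 0) → ∀ s ∈ S, p s = 0 := by
  induction M with
  | zero =>
    intro p hM _ s hs
    have h0 : ∑ s ∈ S, msr (p s) = 0 := Nat.le_zero.mp hM
    rw [Finset.sum_eq_zero_iff] at h0
    by_contra hne
    have := h0 s hs
    rw [msr_ne hne] at this
    omega
  | succ M ih =>
    intro p hM hrel
    by_contra hcon
    push Not at hcon
    obtain ⟨s0, hs0, hne⟩ := hcon
    let q : ℤ → ℂ[X] := fun s => C (t ^ s) * (p s).comp (X + C 1) - C (t ^ s0) * p s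
    have hq : ∀ s, q s = C (t ^ s) * (p s).comp (X + C 1) - C (t ^ s0) * p s := fun s => rfl
    have hle : ∀ s, (q s).degree ≤ (p s).degree := by
      intro s
      rw [hq]
      refine le_trans (degree_sub_le _ _) (max_le ?_ ?_)
      · rw [degree_C_mul (zpow_ne_zero _ ht), comp_deg]
      · rw [degree_C_mul (zpow_ne_zero _ ht)]
    have hlt : (q s0).degree < (p s0).degree := by
      have e1 : q s0 = C (t ^ s0) * ((p s0).comp (X + C 1) - p s0) := by
        rw [hq]
        ring
      rw [e1, degree_C_mul (zpow_ne_zero _ ht)]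
      have hc0 : (p s0).comp (X + C 1) ≠ 0 := by
        intro h
        apply hne
        have := comp_deg (p s0)
        rw [h, degree_zero] at this
        exact degree_eq_bot.mp this.symm
      have := degree_sub_lt (comp_deg (p s0)) hc0 (comp_lead (p s0))
      rwa [comp_deg] at this
    have hsum : ∑ s ∈ S, msr (q s) < ∑ s ∈ S, msr (p s) :=
      Finset.sum_lt_sum (fun s _ => msr_le (hle s)) ⟨s0, hs0, msr_lt hlt⟩
    have hqrel : ∀ j : ℕ, ∑ s ∈ S, (t ^ s) ^ j * (q s).eval (j : ℂ) = 0 := by
      intro j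
      have e2 : ∀ s ∈ S, (t ^ s) ^ j * (q s).eval (j : ℂ) =
          (t ^ s) ^ (j + 1) * (p s).eval ((j + 1 : ℕ) : ℂ) -
            t ^ s0 * ((t ^ s) ^ j * (p s).eval (j : ℂ)) := by
        intro s _
        rw [hq, eval_sub, eval_mul, eval_mul, eval_C, eval_C, eval_comp, eval_add, eval_X, eval_C]
        push_cast
        ring
      rw [Finset.sum_congr rfl e2, Finset.sum_sub_distrib, hrel (j + 1), ← Finset.mul_sum, hrel j]
      ring
    have hq0 := ih q (by omega) hqrel
    have hp0 : ∀ s ∈ S, s ≠ s0 → p s = 0 := by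
      intro s hs hss
      by_contra hps
      have e3 := hq0 s hs
      rw [hq, sub_eq_zero] at e3
      have e4 := congrArg leadingCoeff e3
      rw [leadingCoeff_mul, leadingCoeff_mul, leadingCoeff_C, leadingCoeff_C, comp_lead] at e4
      have e5 : t ^ s = t ^ s0 := mul_right_cancel₀ (leadingCoeff_ne_zero.mpr hps) e4
      have e6 : t ^ (s - s0) = 1 := by
        rw [zpow_sub₀ ht, e5]
        exact div_self (zpow_ne_zero _ ht)
      have := h1 _ e6
      omega
    have hz : ∀ j : ℕ, (p s0).eval (j : ℂ) = 0 := by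
      intro j
      have e7 := hrel j
      rw [Finset.sum_eq_single_of_mem s0 hs0 (fun s hs hss => by
        rw [hp0 s hs hss, eval_zero, mul_zero])] at e7
      exact (mul_eq_zero.mp e7).resolve_left (pow_ne_zero _ (zpow_ne_zero _ ht))
    apply hne
    apply eq_zero_of_infinite_isRoot
    refine Set.Infinite.mono ?_ (Set.infinite_range_of_injective (Nat.cast_injective (R := ℂ)))
    rintro _ ⟨j, rfl⟩
    exact hz j

/-- **EXP** -/
theorem t : Pool.Agent.Helper3.FewP.G_EXP := by
  intro S t p ht h1 hrel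
  exact exp_aux S t ht h1 _ p le_rfl hrel

end Pool.Agent.Helper78.FewP.EXP
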