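import Pool.Agent.Helper78.FewP.TSP

/-!
# FewPoints (MP_d3128a_ag), block STRIP: packet I1S (the full rank)
-/

set_option autoImplicit false

namespace Pool.Agent.Helper78.FewP.I1S

open scoped BigOperators
open Pool.Agent.Helper3.FewP
open Pool.Agent.Helper78.FewP.TSP (VV_mono)

noncomputable section

/-- the arithmetic of the admissible numbers -/
theorem adm_card {k P m N s : ℕ} (h : Adm k P m N s) :
    2 * (k * N) + s * (s + 1) = m * (m + 1) := by
  rcases h with ⟨h1, h2⟩ | ⟨h1, h2⟩
  · subst h1 h2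
    ring
  · have e1 : (m : ℤ) = 2 * k * P - 1 - s := by
      have : ((m + 1 + s : ℕ) : ℤ) = ((2 * k * P : ℕ) : ℤ) := by rw [h1]
      push_cast at this
      linarith
    have e2 : (N : ℤ) = P * (2 * k * P) - P * (2 * s + 1) := by
      have : ((N + P * (2 * s + 1) : ℕ) : ℤ) = ((P * (2 * k * P) : ℕ) : ℤ) := by rw [h2]
      push_cast at this
      linarith
    have : ((2 * (k * N) + s * (s + 1) : ℕ) : ℤ) = ((m * (m + 1) : ℕ) : ℤ) := by
      push_cast
      rw [e1, e2]
      ring
    exact_mod_cast this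

theorem avoid (B : Set ℂ) (hB : B.Finite) : ∃ z : ℂ, z ∉ B :=
  hB.infinite_compl.nonempty

/-- **I1S** -/
theorem t : G_I1S := by
  intro hG hI hC k P m N s χ t hk hP hA hχ ht
  classical
  have ht0 : t ≠ 0 := by
    rintro rfl
    exact ht (isAlgebraic_zero)
  have hn : ∀ n : ℤ, t ^ n = 1 → n = 0 := by
    intro n hn
    by_contra hne
    have h1 : t ^ n.natAbs = 1 := by
      rcases Int.natAbs_eq n with h | h
      · rw [h, zpow_natCast] at hn
        exact hn
      · rw [h, zpow_neg, zpow_natCast, inv_eq_one] at hn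
        exact hn
    apply ht
    refine ⟨Polynomial.X ^ n.natAbs - Polynomial.C 1, ?_, ?_⟩
    · exact Polynomial.X_pow_sub_C_ne_zero (Int.natAbs_pos.mpr hne) 1
    · rw [map_sub, map_pow, Polynomial.aeval_X, Polynomial.aeval_C, h1, map_one, sub_self]
  obtain ⟨rk, hrk, hgro⟩ := hG k m χ t hk hχ ht0 hn
  have hle : ∀ M, rk M ≤ Fintype.card (Mon m) := by
    intro M
    obtain ⟨B, hB, h⟩ := hrk M
    obtain ⟨z, hz⟩ := avoid B hB
    rw [← h z hz, ← Module.finrank_fintype_fun_eq_card EE]
    exact Submodule.finrank_le _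
  have hmono : ∀ M, rk M ≤ rk (M + 1) := by
    intro M
    obtain ⟨B, hB, h⟩ := hrk M
    obtain ⟨B', hB', h'⟩ := hrk (M + 1)
    obtain ⟨z, hz⟩ := avoid (B ∪ B') (hB.union hB')
    rw [← h z (fun hh => hz (Or.inl hh)), ← h' z (fun hh => hz (Or.inr hh))]
    exact Submodule.finrank_mono (VV_mono k m χ t z (Nat.le_succ M))
  have hN : rk N = N * k := by
    obtain ⟨B, hB, h⟩ := hrk N
    obtain ⟨B', hB', h'⟩ := hI k P m N s χ t hk hP hA hχ ht
    obtain ⟨z, hz⟩ := avoid (B ∪ B') (hB.union hB')
    rw [← h z (fun hh => hz (Or.inl hh))]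
    have := finrank_span_eq_card (h' z (fun hh => hz (Or.inr hh)))
    rw [Fintype.card_prod, Fintype.card_fin, Fintype.card_fin] at this
    exact this
  have hstep : ∀ i, min (Fintype.card (Mon m)) (N * k + i) ≤ rk (N + i) := by
    intro i
    induction i with
    | zero =>
      rw [Nat.add_zero, Nat.add_zero, hN]
      exact min_le_right _ _
    | succ i ih =>
      by_cases heq : rk (N + i + 1) = rk (N + i)
      · have h1 := hgro (N + i) heq
        rw [← add_assoc N, heq, h1]
        exact min_le_left _ _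
      · have h1 := hmono (N + i)
        rw [← add_assoc N]
        omega
  have hcard : Fintype.card (Mon m) = N * k + s * (s + 1) / 2 := by
    have h1 := adm_card hA
    have h2 := hC m
    have h3 : 2 ∣ s * (s + 1) := (Nat.even_mul_succ_self s).two_dvd
    have h4 : N * k = k * N := Nat.mul_comm _ _
    omega
  have hfull : rk (N + s * (s + 1) / 2) = Fintype.card (Mon m) := by
    have h1 := hstep (s * (s + 1) / 2)
    rw [← hcard, min_self] at h1
    exact le_antisymm (hle _) h1
  obtain ⟨B, hB, h⟩ := hrk (N + s * (s + 1) / 2)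
  refine ⟨B, hB, ?_⟩
  intro z hz
  have h1 := h z hz
  rw [hfull, ← Module.finrank_fintype_fun_eq_card EE] at h1
  exact Submodule.eq_top_of_finrank_eq h1

end

end Pool.Agent.Helper78.FewP.I1S
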