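import Pool.Agent.Helper3.FewP.Goals3

/-!
# FewPoints (MP_d3128a_ag), block STRIP: packet TRA (translation of the levels)
-/

set_option autoImplicit false

namespace Pool.Agent.Helper78.FewP.TRA

open scoped BigOperators
open Pool.Agent.Helper3.FewP

noncomputable section

/-- the binomial matrix -/
def cm {m : ℕ} (y x : Mon m) : EE :=
  if x.1.1 = y.1.1 then ((Nat.choose (y.1.2 : ℕ) (x.1.2 : ℕ) : ℕ) : EE) else 0

/-- the linear map -/
def UU (m : ℕ) : (Mon m → EE) →ₗ[EE] (Mon m → EE) where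
  toFun f := fun y => ∑ x : Mon m, cm y x * f x
  map_add' f g := by
    ext1 y
    simp only [Pi.add_apply, mul_add, Finset.sum_add_distrib]
  map_smul' c f := by
    ext1 y
    simp only [Pi.smul_apply, smul_eq_mul, RingHom.id_apply, Finset.mul_sum]
    apply Finset.sum_congr rfl
    intro x _
    ring

/-- the binomial sum -/
theorem bin_sum (m : ℕ) (y : Mon m) (J T : EE) :
    ∑ x : Mon m, cm y x * (J ^ (x.1.2 : ℕ) * (if x.1.1 = y.1.1 then T else 0)) =
      (J + 1) ^ (y.1.2 : ℕ) * T := by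
  classical
  have hy := y.2
  rw [add_pow, Finset.sum_mul]
  symm
  have hlt : ∀ b ∈ Finset.range ((y.1.2 : ℕ) + 1), b < m ∧ (y.1.1 : ℕ) + b < m := by
    intro b hb
    rw [Finset.mem_range] at hb
    omega
  refine Finset.sum_bij_ne_zero (fun b hb _ =>
    (⟨(y.1.1, ⟨b, (hlt b hb).1⟩), (hlt b hb).2⟩ : Mon m)) ?_ ?_ ?_ ?_
  · intro b hb _
    exact Finset.mem_univ _
  · intro b hb _ b' hb' _ h
    have := congrArg (fun x : Mon m => (x.1.2 : ℕ)) h
    exact this
  · intro x _ hx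
    by_cases h1 : x.1.1 = y.1.1
    · have h2 : (x.1.2 : ℕ) < (y.1.2 : ℕ) + 1 := by
        by_contra hlt2
        apply hx
        unfold cm
        rw [if_pos h1, Nat.choose_eq_zero_of_lt (by omega), Nat.cast_zero, zero_mul]
      refine ⟨(x.1.2 : ℕ), Finset.mem_range.mpr h2, ?_, ?_⟩
      · intro h0
        apply hx
        unfold cm
        rw [if_pos h1, if_pos h1]
        rw [one_pow, mul_one] at h0
        rw [← mul_assoc, mul_comm _ (J ^ (x.1.2 : ℕ))]
        exact h0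
      · apply Subtype.ext
        apply Prod.ext
        · exact h1.symm
        · rfl
    · exfalso
      apply hx
      rw [if_neg h1, mul_zero, mul_zero]
  · intro b hb _
    unfold cm
    simp only [if_true, one_pow, mul_one]
    ring

theorem sent_mul (k r : ℕ) (c : ℂ) (h h' : ℤ → ℤ → ℂ)
    (hh : ∀ s : ℤ, h s (r + k * s) = c * h' s (r + k * s)) :
    sent k r h = PowerSeries.C c * sent k r h' := by
  ext e
  unfold sent
  rw [PowerSeries.coeff_C_mul, PowerSeries.coeff_mk, PowerSeries.coeff_mk, Finset.mul_sum]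
  apply Finset.sum_congr rfl
  intro s _
  by_cases hs : ee k r s = e
  · rw [if_pos hs, if_pos hs, hh]
  · rw [if_neg hs, if_neg hs, mul_zero]

theorem thz_tr (k : ℕ) (χ t τ z : ℂ) (a j r : ℕ) (hτ : τ ≠ 0) (hk : τ ^ k = t) :
    thz k (χ * t ^ j) (τ * z) a r = (HahnSeries.C (τ ^ r) : EE) * thz k (χ * t ^ (j + 1)) z a r := by
  unfold thz
  rw [sent_mul k r (τ ^ r) _ (fun s n => (χ * t ^ (j + 1)) ^ s * z ^ n * (n : ℂ) ^ a)]
  · rw [map_mul, HahnSeries.ofPowerSeries_C]
  · intro s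
    have e1 : (τ * z) ^ ((r : ℤ) + k * s) = τ ^ r * t ^ s * z ^ ((r : ℤ) + k * s) := by
      rw [mul_zpow, zpow_add₀ hτ, zpow_mul, zpow_natCast, zpow_natCast, hk]
    rw [e1, pow_succ, ← mul_assoc χ, mul_zpow (χ * t ^ j) t]
    ring

/-- **TRA** -/
theorem t : G_TRA := by
  intro k m
  refine ⟨UU m, ?_⟩
  intro χ t τ z j r hτ hk
  ext1 y
  show ∑ x : Mon m, cm y x * vv k m χ t (τ * z) j r x =
    (HahnSeries.C (τ ^ r) : EE) * vv k m χ t z (j + 1) r y
  have e1 : ∀ x : Mon m, cm y x * vv k m χ t (τ * z) j r x =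
      cm y x * (((j : ℕ) : EE) ^ (x.1.2 : ℕ) *
        (if x.1.1 = y.1.1 then thz k (χ * t ^ j) (τ * z) y.1.1 r else 0)) := by
    intro x
    unfold vv
    by_cases h : x.1.1 = y.1.1
    · rw [if_pos h, h]
    · unfold cm
      rw [if_neg h, if_neg h, zero_mul, zero_mul]
  rw [Finset.sum_congr rfl (fun x _ => e1 x), bin_sum, thz_tr k χ t τ z y.1.1 j r hτ hk]
  unfold vv
  push_cast
  ring

end

end Pool.Agent.Helper78.FewP.TRA
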