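import Pool.Agent.Helper3.FewP.Goals3

/-!
# FewPoints (MP_d3128a_ag), block STRIP: packet TSP (finitely many levels span everything)
-/

set_option autoImplicit false

namespace Pool.Agent.Helper78.FewP.TSP

open scoped BigOperators
open Pool.Agent.Helper3.FewP

noncomputable section

theorem VV_mono (k m : ℕ) (χ t z : ℂ) {N N' : ℕ} (h : N ≤ N') :
    VV k m χ t z N ≤ VV k m χ t z N' := by
  unfold VV
  apply Submodule.span_mono
  rintro _ ⟨⟨j, r⟩, rfl⟩
  exact ⟨(⟨j.val, lt_of_lt_of_le j.isLt h⟩, r), rfl⟩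

theorem vv_mem (k m : ℕ) (χ t z : ℂ) {N j r : ℕ} (hj : j < N) (hr : r < k) :
    vv k m χ t z j r ∈ VV k m χ t z N :=
  Submodule.subset_span ⟨(⟨j, hj⟩, ⟨r, hr⟩), rfl⟩

theorem tsp_aux (hT : G_TOT) (k m : ℕ) (χ t z : ℂ) (hk : 1 ≤ k) (hχ : χ ≠ 0) (hz : z ≠ 0) (ht : t ≠ 0)
    (hn : ∀ n : ℤ, t ^ n = 1 → n = 0) : ∃ N : ℕ, VV k m χ t z N = ⊤ := by
  classical
  let F : ℕ →o Submodule EE (Mon m → EE) :=
    ⟨fun N => VV k m χ t z N, fun _ _ h => VV_mono k m χ t z h⟩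
  obtain ⟨N, hN⟩ := monotone_stabilizes_iff_noetherian.mpr
    (inferInstance : IsNoetherian EE (Mon m → EE)) F
  refine ⟨N, ?_⟩
  by_contra hne
  obtain ⟨f, hf0, hf⟩ := Submodule.exists_le_ker_of_lt_top _ (lt_top_iff_ne_top.mpr hne)
  have hfs : ∀ v : Mon m → EE, f v = ∑ ab, f (Pi.single ab 1) * v ab := by
    intro v
    have e1 : v = ∑ ab, v ab • (Pi.single ab (1 : EE) : Mon m → EE) := by
      ext1 x
      rw [Finset.sum_apply]
      simp [Pi.single_apply]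
    conv_lhs => rw [e1]
    rw [map_sum]
    apply Finset.sum_congr rfl
    intro ab _
    rw [map_smul, smul_eq_mul, mul_comm]
  have h0 := hT k m χ t z (fun ab => f (Pi.single ab 1)) hk hχ hz ht hn (by
    intro j r hr
    rw [← hfs]
    have e2 : vv k m χ t z j r ∈ VV k m χ t z (max N (j + 1)) :=
      vv_mem k m χ t z (lt_of_lt_of_le (Nat.lt_succ_self j) (le_max_right _ _)) hr
    have e3 : VV k m χ t z N = VV k m χ t z (max N (j + 1)) := hN _ (le_max_left _ _)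
    rw [← e3] at e2
    exact hf e2)
  apply hf0
  apply LinearMap.ext
  intro v
  rw [hfs]
  have : ∀ ab, f (Pi.single ab 1) = 0 := fun ab => congrFun h0 ab
  simp [this]

/-- **TSP** -/
theorem t : G_TOT → G_TSP := fun h k m χ t0 z h1 h2 h3 h4 h5 =>
  tsp_aux h k m χ t0 z h1 h2 h3 h4 h5

end

end Pool.Agent.Helper78.FewP.TSP
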